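import Pool.Agent.Q27.Graphical.Dirichlet

/-!
# A graphical group scheme whose class counting abscissa is not an integer

For a finite simple graph `Γ` and a commutative ring `R` let `GG Γ R` be the graphical group: the
set `R^V × R^E` with `(x, z) (x', z') = (x + x', z + z' + β(x, x'))`, `β(x, x')_e = x_u x'_v` for
`e = {u, v}`, `u < v` (defined in `Pool/Agent/Q27/Graphical/Group.lean`, with the number
`classNumber` of conjugacy classes of a group). We show that for the corona of the complete graph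
`K₄` (the graph with 8 vertices obtained from `K₄` by attaching one pendant vertex to each of the
four vertices) the abscissa of convergence of the class counting zeta function over `ℤ` is
`25/2`.
-/

set_option autoImplicit false

open NumberField Q27.Graphical

namespace Pool.Agent.Results.MP_2f42a7_al.HalfIntegerAbscissa

/-- The summand `k(G_Γ(𝓞_K/I)) |𝓞_K : I|^{-s}` of the class counting zeta function of `Γ` over the
ring of integers of the number field `K`, for a nonzero ideal `I`. -/
noncomputable def term {V : Type*} [LinearOrder V] (Γ : SimpleGraph V) (K : Type*) [Field K]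
    [NumberField K] (s : ℂ) (I : {I : Ideal (𝓞 K) // I ≠ ⊥}) : ℂ :=
  (classNumber (GG Γ (𝓞 K ⧸ I.1)) : ℂ) * ((Nat.card (𝓞 K ⧸ I.1) : ℂ)) ^ (-s)

/-- The abscissa of convergence: the infimum of the real numbers `σ` such that the series
`∑_I k(G_Γ(𝓞_K/I)) |𝓞_K : I|^{-s}` converges for all `s` with `Re s > σ`. -/
noncomputable def abscissa {V : Type*} [LinearOrder V] (Γ : SimpleGraph V) (K : Type*) [Field K]
    [NumberField K] : ℝ :=
  sInf {σ : ℝ | ∀ s : ℂ, σ < s.re → Summable (term Γ K s)}

/-- The ideal `(n)` of the ring of integers of `ℚ`. -/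
def idl (n : ℕ+) : {I : Ideal (𝓞 ℚ) // I ≠ ⊥} :=
  ⟨Ideal.span {((n : ℕ) : 𝓞 ℚ)}, by
    rw [Ne, Ideal.span_singleton_eq_bot]
    exact_mod_cast n.ne_zero⟩

/-- The quotient. -/
noncomputable def quotEquiv (n : ℕ+) : (𝓞 ℚ ⧸ (idl n).1) ≃+* ZMod n :=
  (Ideal.quotientEquiv (idl n).1 (Ideal.span {((n : ℕ) : ℤ)}) Rat.ringOfIntegersEquiv (by
    rw [idl, Ideal.map_span, Set.image_singleton]
    simp)).trans (Int.quotientSpanNatEquivZMod n)

theorem idl_bijective : Function.Bijective idl := by
  constructor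
  · intro m n h
    have h1 : Nat.card (𝓞 ℚ ⧸ (idl m).1) = Nat.card (𝓞 ℚ ⧸ (idl n).1) := by rw [h]
    rw [Nat.card_congr (quotEquiv m).toEquiv, Nat.card_congr (quotEquiv n).toEquiv,
      Nat.card_zmod, Nat.card_zmod] at h1
    exact PNat.coe_injective h1
  · rintro ⟨I, hI⟩
    let e := Rat.ringOfIntegersEquiv
    have h1 : (I.map (e : 𝓞 ℚ →+* ℤ)).IsPrincipal := IsPrincipalIdealRing.principal _
    obtain ⟨z, hz⟩ := h1
    have hz' : I.map (e : 𝓞 ℚ →+* ℤ) = Ideal.span {z} := hz
    have hI' : I = (Ideal.span {z}).map (e.symm : ℤ →+* 𝓞 ℚ) := by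
      rw [← hz', Ideal.map_map]
      simp
    have hz0 : z ≠ 0 := by
      rintro rfl
      apply hI
      rw [hI']
      simp
    refine ⟨⟨z.natAbs, Int.natAbs_pos.2 hz0⟩, ?_⟩
    apply Subtype.ext
    change Ideal.span {((z.natAbs : ℕ) : 𝓞 ℚ)} = I
    rw [hI', ← Int.span_natAbs z, Ideal.map_span, Set.image_singleton]
    simp

theorem term_idl (s : ℂ) (n : ℕ+) :
    term corona ℚ s (idl n) = (cc n : ℂ) * ((n : ℕ) : ℂ) ^ (-s) := by
  have h : Finite (𝓞 ℚ ⧸ (idl n).1) := by
    have : NeZero (n : ℕ) := ⟨n.ne_zero⟩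
    exact Finite.of_equiv _ (quotEquiv n).symm.toEquiv
  have : NeZero (n : ℕ) := ⟨n.ne_zero⟩
  unfold term
  rw [classNumber_congr corona (quotEquiv n), Nat.card_congr (quotEquiv n).toEquiv, Nat.card_zmod]
  rfl

theorem summable_iff (s : ℂ) : Summable (term corona ℚ s) ↔ Summable (f s.re) := by
  rw [← (Equiv.ofBijective idl idl_bijective).summable_iff]
  have h1 : (term corona ℚ s ∘ (Equiv.ofBijective idl idl_bijective)) =
      fun n : ℕ+ => (cc n : ℂ) * ((n : ℕ) : ℂ) ^ (-s) := by
    funext n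
    exact term_idl s n
  rw [h1, ← summable_norm_iff]
  have h2 : (fun n : ℕ+ => ‖(cc n : ℂ) * ((n : ℕ) : ℂ) ^ (-s)‖) = fun n : ℕ+ => f s.re n := by
    funext n
    rw [norm_mul, Complex.norm_natCast_cpow_of_pos n.pos, Complex.norm_natCast]
    unfold f
    rw [if_neg n.ne_zero]
    simp
  rw [h2, ← Equiv.pnatEquivNat.symm.summable_iff]
  exact summable_nat_add_iff (f := f s.re) 1

theorem summable_iff' (s : ℂ) : Summable (term corona ℚ s) ↔ 25 / 2 < s.re := by
  rw [summable_iff]
  have hmono : ∀ {σ τ : ℝ}, σ ≤ τ → Summable (f σ) → Summable (f τ) := by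
    intro σ τ hστ h
    refine Summable.of_nonneg_of_le (f_nonneg τ) (fun n => ?_) h
    unfold f
    split_ifs with h0
    · exact le_rfl
    · have h1 : (1 : ℝ) ≤ n := by exact_mod_cast Nat.one_le_iff_ne_zero.2 h0
      gcongr
  constructor
  · intro h
    by_contra hlt
    exact not_summable_f (hmono (not_lt.1 hlt) h)
  · intro h
    obtain ⟨ε, hε0, hε⟩ : ∃ ε : ℝ, 0 < ε ∧ ε ≤ 1 / 4 ∧ 25 / 2 + ε ≤ s.re :=
      ⟨min (1 / 4) (s.re - 25 / 2), lt_min (by norm_num) (by linarith), min_le_left _ _, by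
        have := min_le_right (1 / 4 : ℝ) (s.re - 25 / 2)
        linarith⟩
    exact hmono hε.2 (summable_f hε0 hε.1)

/-- The abscissa of convergence of the corona of `K₄` over `ℚ`. -/
theorem abscissa_corona : abscissa corona ℚ = 25 / 2 := by
  have h : {σ : ℝ | ∀ s : ℂ, σ < s.re → Summable (term corona ℚ s)} = Set.Ici (25 / 2) := by
    ext σ
    simp only [Set.mem_ofPred_eq, Set.mem_Ici, summable_iff']
    constructor
    · intro h
      by_contra hlt
      push Not at hlt
      have := h ((25 / 2 : ℝ) : ℂ) (by simpa using hlt)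
      simp at this
    · intro h s hs
      linarith
  unfold abscissa
  rw [h, csInf_Ici]

/-- There is a finite simple graph `Γ` (with 8 vertices and 10 edges) such that the abscissa of
convergence of the class counting zeta function of `G_Γ ⊗ 𝓞_ℚ` is `25/2`: the series converges
exactly for `Re s > 25/2`. In particular it is not an integer. -/
theorem result :
    ∃ Γ : SimpleGraph (Fin 8), Nat.card Γ.edgeSet = 10 ∧
      (∀ s : ℂ, Summable (term Γ ℚ s) ↔ 25 / 2 < s.re) ∧
      abscissa Γ ℚ = 25 / 2 ∧ ∀ z : ℤ, abscissa Γ ℚ ≠ z := by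
  refine ⟨corona, card_corona, summable_iff', abscissa_corona, fun z hz => ?_⟩
  rw [abscissa_corona] at hz
  have h1 : (25 : ℝ) = 2 * z := by linarith
  have h2 : (25 : ℤ) = 2 * z := by exact_mod_cast h1
  omega

end Pool.Agent.Results.MP_2f42a7_al.HalfIntegerAbscissa
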